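import Mathlib

/-!
# Every target attained, yet every solution set has dimension zero

For every `d ≥ 2` there is a null sequence `(a_n)` in `ℝ^d` such that every `L ∈ ℝ^d` is the sum
of `∑ ε_n a_n` for some signs, while the set `E_L` of all such sign sequences has Hausdorff
dimension `0` for every `L`.  This disproves the statement of Q1.

Construction (coordinates `X = 0`, `Y = 1`, and `e = d - 2` further ones).  Stage `k` consists of
* one vector `e_(c+2) / (k+1)` for each further coordinate;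
* `M_k` copies of `2^(-k) * (1, η_k)` with `η_k = 2^(k - b_k)`;
* the vectors `(0, 2^(-j))` for `b_k ≤ j ≤ b_(k+1)`.
Here `b_(k+1) - b_k` is much larger than the number of all earlier vectors.  To converge, the error
in `Y` after stage `k` must be `O(η_(k+1))`, as later stages cannot correct more without a large
excursion in `X`; hence the signs of the third group are determined up to `O(2^k)` choices.
-/

set_option autoImplicit false

open Filter Topology Set MeasureTheory
open scoped ENNReal NNReal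

namespace Pool.Agent.Results.MP_b48a23_an.AllTargetsDimZero

/-- `Ω = {-1,1}^ℕ`: a sign sequence is a map `val : ℕ → ℝ` all of whose values are `1` or `-1`.
(Indices start at `0`: `val n` is the sign written `ε_(n+1)` in the problem file.) -/
@[ext] structure SignSeq where
  val : ℕ → ℝ
  mem : ∀ n, val n = 1 ∨ val n = -1

/-- The metric of the problem: `ρ(ε,δ) = 2^(-min {n : ε_n ≠ δ_n})` with `n` counted from `1`,
that is `(1/2)^(m+1)` where `m` is the first index (counted from `0`) at which the two sequences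
differ, and `0` if they are equal. -/
noncomputable def rho (x y : SignSeq) : ℝ :=
  open Classical in
  if x = y then 0 else (1 / 2 : ℝ) ^ (sInf {n : ℕ | x.val n ≠ y.val n} + 1)

lemma agree_of_lt {x y : SignSeq} {m : ℕ} (h : m < sInf {n : ℕ | x.val n ≠ y.val n}) :
    x.val m = y.val m := by
  by_contra hne
  exact absurd (Nat.sInf_le (s := {n : ℕ | x.val n ≠ y.val n}) hne) (not_le.mpr h)

lemma rho_self (x : SignSeq) : rho x x = 0 := by simp [rho]

lemma rho_comm (x y : SignSeq) : rho x y = rho y x := by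
  unfold rho
  by_cases h : x = y
  · subst h; rfl
  · rw [if_neg h, if_neg (Ne.symm h)]
    simp only [ne_comm]

lemma rho_nonneg (x y : SignSeq) : 0 ≤ rho x y := by
  unfold rho; split_ifs <;> positivity

/-- Agreement before `n` gives small distance. -/
lemma rho_le_of_agree {x y : SignSeq} {n : ℕ} (h : ∀ m < n, x.val m = y.val m) :
    rho x y ≤ (1 / 2 : ℝ) ^ (n + 1) := by
  unfold rho
  split_ifs with hxy
  · positivity
  · apply pow_le_pow_of_le_one (by norm_num) (by norm_num)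
    have hne : {n : ℕ | x.val n ≠ y.val n}.Nonempty := by
      by_contra hemp
      apply hxy
      ext n
      by_contra hn
      exact hemp ⟨n, hn⟩
    have := Nat.sInf_mem hne
    by_contra hlt
    push Not at hlt
    exact this (h _ (by omega))

lemma agree_of_rho_le {x y : SignSeq} {n : ℕ} (h : rho x y ≤ (1 / 2 : ℝ) ^ (n + 1)) :
    ∀ m < n, x.val m = y.val m := by
  intro m hm
  unfold rho at h
  split_ifs at h with hxy
  · rw [hxy]
  · have h2 : n + 1 ≤ sInf {n : ℕ | x.val n ≠ y.val n} + 1 := by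
      by_contra hlt
      push Not at hlt
      have := pow_lt_pow_right_of_lt_one₀ (a := (1 / 2 : ℝ)) (by norm_num) (by norm_num) hlt
      linarith
    exact agree_of_lt (by omega)

lemma eq_of_rho_eq_zero {x y : SignSeq} (h : rho x y = 0) : x = y := by
  unfold rho at h
  split_ifs at h with hxy
  · exact hxy
  · exact absurd h (by positivity)

lemma rho_ultra (x y z : SignSeq) : rho x z ≤ max (rho x y) (rho y z) := by
  by_cases hxy : x = y
  · subst hxy; exact le_max_right _ _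
  by_cases hyz : y = z
  · subst hyz; exact le_max_left _ _
  set a := sInf {n : ℕ | x.val n ≠ y.val n} with ha
  set b := sInf {n : ℕ | y.val n ≠ z.val n} with hb
  have h1 : rho x y = (1 / 2 : ℝ) ^ (a + 1) := by rw [rho, if_neg hxy]
  have h2 : rho y z = (1 / 2 : ℝ) ^ (b + 1) := by rw [rho, if_neg hyz]
  have h3 : rho x z ≤ (1 / 2 : ℝ) ^ (min a b + 1) := by
    apply rho_le_of_agree
    intro m hm
    rw [agree_of_lt (lt_of_lt_of_le hm (min_le_left _ _)),
      agree_of_lt (lt_of_lt_of_le hm (min_le_right _ _))]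
  rcases le_total a b with hab | hab
  · rw [min_eq_left hab] at h3
    exact le_max_of_le_left (h1 ▸ h3)
  · rw [min_eq_right hab] at h3
    exact le_max_of_le_right (h2 ▸ h3)

/-- `Ω` with the metric `rho`. -/
noncomputable instance : MetricSpace SignSeq where
  dist := rho
  dist_self := rho_self
  dist_comm := rho_comm
  dist_triangle x y z := (rho_ultra x y z).trans
    (max_le_add_of_nonneg (rho_nonneg _ _) (rho_nonneg _ _))
  eq_of_dist_eq_zero := eq_of_rho_eq_zero

/-- `E_L`: the sign sequences for which the series `∑ ε_n a_n`, summed in the given order,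
converges to `L`. -/
def signSet {d : ℕ} (a : ℕ → EuclideanSpace ℝ (Fin d)) (L : EuclideanSpace ℝ (Fin d)) :
    Set SignSeq :=
  {x | Tendsto (fun N : ℕ => ∑ n ∈ Finset.range N, x.val n • a n) atTop (𝓝 L)}


/-! ### parameters -/

def MM (k N b : ℕ) : ℕ := 2 ^ (b + 1) * (k + 2 * N + 1)
def LL (e k N b : ℕ) : ℕ := (k + 1) * (N + e + MM k N b + k + 6)

/-- the pair `(N_k, b_k)` -/
def par (e : ℕ) : ℕ → ℕ × ℕ
  | 0 => (0, 0)
  | k + 1 =>
    ((par e k).1 + e + MM k (par e k).1 (par e k).2 + LL e k (par e k).1 (par e k).2 + 1,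
      (par e k).2 + LL e k (par e k).1 (par e k).2)

def NN (e k : ℕ) : ℕ := (par e k).1
def bb (e k : ℕ) : ℕ := (par e k).2
def Mk (e k : ℕ) : ℕ := MM k (NN e k) (bb e k)
def Lk (e k : ℕ) : ℕ := LL e k (NN e k) (bb e k)
def PP (e k : ℕ) : ℕ := NN e k + e + Mk e k

lemma NN_zero (e : ℕ) : NN e 0 = 0 := rfl
lemma bb_zero (e : ℕ) : bb e 0 = 0 := rfl
lemma NN_succ (e k : ℕ) : NN e (k + 1) = PP e k + Lk e k + 1 := rfl
lemma bb_succ (e k : ℕ) : bb e (k + 1) = bb e k + Lk e k := rfl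
lemma PP_def (e k : ℕ) : PP e k = NN e k + e + Mk e k := rfl
lemma Lk_eq (e k : ℕ) : Lk e k = (k + 1) * (PP e k + k + 6) := rfl
lemma Mk_eq (e k : ℕ) : Mk e k = 2 ^ (bb e k + 1) * (k + 2 * NN e k + 1) := rfl

lemma Lk_ge (e k : ℕ) : PP e k + k + 6 ≤ Lk e k := by
  rw [Lk_eq]; nlinarith [Nat.zero_le k, Nat.zero_le (PP e k)]

lemma NN_lt (e k : ℕ) : NN e k < NN e (k + 1) := by
  rw [NN_succ, PP_def]; omega

lemma NN_strictMono (e : ℕ) : StrictMono (NN e) := strictMono_nat_of_lt_succ (NN_lt e)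

lemma le_NN (e k : ℕ) : k ≤ NN e k := (NN_strictMono e).le_apply

lemma bb_ge (e k : ℕ) : k ≤ bb e k := by
  induction k with
  | zero => simp
  | succ k ih => rw [bb_succ]; have := Lk_ge e k; omega

/-- the stage of `n` -/
def stage (e n : ℕ) : ℕ := Nat.findGreatest (fun k => NN e k ≤ n) n

lemma NN_stage_le (e n : ℕ) : NN e (stage e n) ≤ n :=
  Nat.findGreatest_spec (P := fun k => NN e k ≤ n) (Nat.zero_le n) (by simp [NN_zero])

lemma le_stage {e n k : ℕ} (h : NN e k ≤ n) : k ≤ stage e n :=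
  Nat.le_findGreatest ((le_NN e k).trans h) h

lemma stage_eq {e n k : ℕ} (h1 : NN e k ≤ n) (h2 : n < NN e (k + 1)) : stage e n = k := by
  apply le_antisymm _ (le_stage h1)
  have h3 : NN e (stage e n) < NN e (k + 1) := (NN_stage_le e n).trans_lt h2
  have := (NN_strictMono e).lt_iff_lt.mp h3
  omega

lemma lt_NN_stage_succ (e n : ℕ) : n < NN e (stage e n + 1) := by
  by_contra h
  push Not at h
  have := le_stage h
  omega

lemma tendsto_stage (e : ℕ) : Tendsto (stage e) atTop atTop := by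
  apply tendsto_atTop_atTop.mpr
  intro k
  exact ⟨NN e k, fun n hn => le_stage hn⟩

/-- coordinate `t` of the `n`-th vector -/
noncomputable def coord (e n t : ℕ) : ℝ :=
  if n - NN e (stage e n) < e then
    (if t = n - NN e (stage e n) + 2 then 1 / ((stage e n : ℝ) + 1) else 0)
  else if n < PP e (stage e n) then
    (if t = 0 then (1 / 2 : ℝ) ^ (stage e n) else if t = 1 then (1 / 2 : ℝ) ^ (bb e (stage e n)) else 0)
  else if t = 1 then (1 / 2 : ℝ) ^ (bb e (stage e n) + (n - PP e (stage e n))) else 0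

lemma stage_E {e k i : ℕ} (hi : i < e) : stage e (NN e k + i) = k :=
  stage_eq (by omega) (by rw [NN_succ, PP_def]; omega)

lemma stage_A {e k i : ℕ} (hi : i < Mk e k) : stage e (NN e k + e + i) = k :=
  stage_eq (by omega) (by rw [NN_succ, PP_def]; omega)

lemma stage_B {e k i : ℕ} (hi : i ≤ Lk e k) : stage e (PP e k + i) = k :=
  stage_eq (by rw [PP_def]; omega) (by rw [NN_succ]; omega)

lemma coord_E {e k i : ℕ} (hi : i < e) (t : ℕ) :
    coord e (NN e k + i) t = if t = i + 2 then 1 / ((k : ℝ) + 1) else 0 := by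
  unfold coord
  rw [stage_E hi]
  have : NN e k + i - NN e k = i := by omega
  rw [this, if_pos hi]

lemma coord_A {e k i : ℕ} (hi : i < Mk e k) (t : ℕ) :
    coord e (NN e k + e + i) t =
      if t = 0 then (1 / 2 : ℝ) ^ k else if t = 1 then (1 / 2 : ℝ) ^ (bb e k) else 0 := by
  unfold coord
  rw [stage_A hi, if_neg (by omega), if_pos (by rw [PP_def]; omega)]

lemma coord_B {e k i : ℕ} (hi : i ≤ Lk e k) (t : ℕ) :
    coord e (PP e k + i) t = if t = 1 then (1 / 2 : ℝ) ^ (bb e k + i) else 0 := by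
  unfold coord
  rw [stage_B hi, if_neg (by rw [PP_def]; omega), if_neg (by omega)]
  have : PP e k + i - PP e k = i := by omega
  rw [this]

lemma half_pow_le (k : ℕ) : (1 / 2 : ℝ) ^ k ≤ 1 / ((k : ℝ) + 1) := by
  rw [one_div_pow]
  apply one_div_le_one_div_of_le (by positivity)
  have : k + 1 ≤ 2 ^ k := Nat.lt_two_pow_self
  exact_mod_cast this

lemma coord_nonneg (e n t : ℕ) : 0 ≤ coord e n t := by
  unfold coord; split_ifs <;> positivity

lemma coord_le (e n t : ℕ) : coord e n t ≤ 1 / ((stage e n : ℝ) + 1) := by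
  have h1 := half_pow_le (stage e n)
  have h2 : ∀ m, stage e n ≤ m → (1 / 2 : ℝ) ^ m ≤ 1 / ((stage e n : ℝ) + 1) := fun m hm =>
    (pow_le_pow_of_le_one (by norm_num) (by norm_num) hm).trans h1
  have h3 := bb_ge e (stage e n)
  unfold coord
  split_ifs
  · exact le_rfl
  · positivity
  · exact h1
  · exact h2 _ h3
  · positivity
  · exact h2 _ (by omega)
  · positivity

lemma coord_le_one (e n t : ℕ) : coord e n t ≤ 1 := by
  refine (coord_le e n t).trans ?_
  rw [div_le_one (by positivity)]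
  have : (0 : ℝ) ≤ stage e n := by positivity
  linarith

lemma tendsto_coord (e t : ℕ) : Tendsto (fun n => coord e n t) atTop (𝓝 0) := by
  refine squeeze_zero (fun n => coord_nonneg e n t) (fun n => coord_le e n t) ?_
  exact tendsto_one_div_add_atTop_nhds_zero_nat.comp (tendsto_stage e)

noncomputable def eta (e k : ℕ) : ℝ := 2 ^ k * (1 / 2 : ℝ) ^ (bb e k)

lemma eta_pos (e k : ℕ) : 0 < eta e k := by unfold eta; positivity

lemma half_mul_eta (e k : ℕ) : (1 / 2 : ℝ) ^ k * eta e k = (1 / 2 : ℝ) ^ (bb e k) := by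
  unfold eta
  rw [← mul_assoc, ← mul_pow]; norm_num

lemma eta_le_one (e k : ℕ) : eta e k ≤ 1 := by
  unfold eta
  calc (2:ℝ) ^ k * (1 / 2 : ℝ) ^ (bb e k) ≤ 2 ^ k * (1/2) ^ k := by
        gcongr ?_ * ?_
        exact pow_le_pow_of_le_one (by norm_num) (by norm_num) (bb_ge e k)
    _ = 1 := by rw [← mul_pow]; norm_num

lemma eta_succ_le (e k : ℕ) : eta e (k + 1) ≤ eta e k / 2 := by
  unfold eta
  rw [bb_succ, pow_add (1 / 2 : ℝ)]
  have hL : 2 ≤ Lk e k := by have := Lk_ge e k; omega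
  have h1 : (1 / 2 : ℝ) ^ (Lk e k) ≤ (1/2) ^ 2 :=
    pow_le_pow_of_le_one (by norm_num) (by norm_num) hL
  have h2 : (0:ℝ) < 2 ^ k * (1 / 2 : ℝ) ^ (bb e k) := by positivity
  calc (2:ℝ) ^ (k+1) * ((1 / 2 : ℝ) ^ (bb e k) * (1 / 2 : ℝ) ^ (Lk e k))
      = (2 ^ k * (1 / 2 : ℝ) ^ (bb e k)) * (2 * (1 / 2 : ℝ) ^ (Lk e k)) := by ring
    _ ≤ (2 ^ k * (1 / 2 : ℝ) ^ (bb e k)) * (2 * (1/2)^2) := by gcongr
    _ = _ := by ring

/-! ### greedy -/

noncomputable def sg (x : ℝ) : ℝ := if 0 ≤ x then 1 else -1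

lemma sg_mem (x : ℝ) : sg x = 1 ∨ sg x = -1 := by
  unfold sg; split_ifs <;> simp

lemma abs_sub_sg (x c : ℝ) : |x - sg x * c| = |(|x| - c)| := by
  unfold sg
  split_ifs with h
  · rw [abs_of_nonneg h, one_mul]
  · push Not at h
    rw [abs_of_neg h, ← abs_neg]
    congr 1; ring

/-- the linear functional used at time `n` -/
noncomputable def phi (e n : ℕ) (r : ℕ → ℝ) : ℝ :=
  if n - NN e (stage e n) < e then r (n - NN e (stage e n) + 2)
  else r 1 - eta e (stage e n + 1) * r 0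

/-- residual vector at time `n` under the greedy rule -/
noncomputable def res (e : ℕ) (L : ℕ → ℝ) : ℕ → ℕ → ℝ
  | 0 => L
  | n + 1 => fun t => res e L n t - sg (phi e n (res e L n)) * coord e n t

lemma res_succ (e : ℕ) (L : ℕ → ℝ) (n t : ℕ) :
    res e L (n + 1) t = res e L n t - sg (phi e n (res e L n)) * coord e n t := rfl

lemma sum_sg (e : ℕ) (L : ℕ → ℝ) (N t : ℕ) :
    ∑ n ∈ Finset.range N, sg (phi e n (res e L n)) * coord e n t = L t - res e L N t := by
  induction N with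
  | zero => simp [res]
  | succ N ih => rw [Finset.sum_range_succ, ih, res_succ]; ring

lemma abs_sg (x : ℝ) : |sg x| = 1 := by
  rcases sg_mem x with h | h <;> rw [h] <;> simp

lemma abs_res_le (e : ℕ) (L : ℕ → ℝ) (n t : ℕ) : |res e L n t| ≤ |L t| + n := by
  induction n with
  | zero => simp [res]
  | succ n ih =>
    rw [res_succ]
    have h1 := abs_sub (res e L n t) (sg (phi e n (res e L n)) * coord e n t)
    rw [abs_mul, abs_sg, one_mul, abs_of_nonneg (coord_nonneg e n t)] at h1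
    have h2 := coord_le_one e n t
    push_cast
    linarith

/-- scalar greedy lemma: steps tending to zero with divergent sum -/
lemma greedy_tendsto {ρ u : ℕ → ℝ} (hu0 : ∀ n, 0 ≤ u n) (hu : Tendsto u atTop (𝓝 0))
    (hs : Tendsto (fun N => ∑ n ∈ Finset.range N, u n) atTop atTop)
    (hρ : ∀ n, |ρ (n + 1)| = |(|ρ n| - u n)|) : Tendsto ρ atTop (𝓝 0) := by
  rw [Metric.tendsto_atTop]
  intro δ' hδ'
  obtain ⟨δ, hδ0, hδ⟩ : ∃ δ, 0 < δ ∧ δ < δ' := ⟨δ' / 2, by linarith, by linarith⟩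
  obtain ⟨n0, hn0⟩ := (Metric.tendsto_atTop.mp hu) δ hδ0
  have hu' : ∀ n, n0 ≤ n → u n ≤ δ := by
    intro n hn
    have := hn0 n hn
    rw [Real.dist_eq, sub_zero, abs_of_nonneg (hu0 n)] at this
    exact this.le
  -- there is a time with small residual
  have hex : ∃ n1, n0 ≤ n1 ∧ |ρ n1| ≤ δ := by
    by_contra hcon
    push Not at hcon
    have key : ∀ m, |ρ (n0 + m)| + ∑ n ∈ Finset.range (n0 + m), u n
        = |ρ n0| + ∑ n ∈ Finset.range n0, u n := by
      intro m
      induction m with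
      | zero => simp
      | succ m ih =>
        have h1 := hcon (n0 + m) (by omega)
        have h2 := hu' (n0 + m) (by omega)
        rw [← add_assoc, Finset.sum_range_succ, hρ, abs_of_nonneg (by linarith)]
        linarith
    obtain ⟨N, hN⟩ := (tendsto_atTop_atTop.mp hs) (|ρ n0| + ∑ n ∈ Finset.range n0, u n + 1)
    have h3 := hN (n0 + N) (by omega)
    have h4 := key N
    have h5 := abs_nonneg (ρ (n0 + N))
    linarith
  obtain ⟨n1, hn1, hρ1⟩ := hex
  have hall : ∀ m, |ρ (n1 + m)| ≤ δ := by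
    intro m
    induction m with
    | zero => simpa using hρ1
    | succ m ih =>
      rw [← add_assoc, hρ]
      have h2 := hu' (n1 + m) (by omega)
      have h3 := hu0 (n1 + m)
      have h4 := abs_nonneg (ρ (n1 + m))
      rw [abs_le]
      constructor <;> linarith
  refine ⟨n1, fun n hn => ?_⟩
  rw [Real.dist_eq, sub_zero]
  have := hall (n - n1)
  rw [Nat.add_sub_cancel' hn] at this
  linarith

/-- block of equal steps -/
lemma block_equal {q : ℕ → ℝ} {c : ℝ} {M : ℕ} (hc : 0 ≤ c)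
    (hq : ∀ m < M, |q (m + 1)| = |(|q m| - c)|) :
    ∀ m ≤ M, |q m| ≤ max c (|q 0| - m * c) := by
  intro m
  induction m with
  | zero => intro _; simp
  | succ m ih =>
    intro hm
    have h1 := ih (by omega)
    rw [hq m (by omega)]
    have h0 := abs_nonneg (q m)
    push_cast
    rcases le_total (|q m|) c with h | h
    · apply le_max_of_le_left
      rw [abs_le]; constructor <;> linarith
    · rw [abs_of_nonneg (by linarith)]
      rcases le_max_iff.mp h1 with h2 | h2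
      · apply le_max_of_le_left; linarith
      · apply le_max_of_le_right; linarith

/-- block of halving steps -/
lemma block_halving {q : ℕ → ℝ} {β : ℝ} {J : ℕ} (hq0 : |q 0| ≤ 2 * β)
    (hq : ∀ j < J, |q (j + 1)| = |(|q j| - β * (1 / 2) ^ j)|) :
    ∀ j ≤ J, |q j| ≤ 2 * β * (1 / 2) ^ j := by
  intro j
  induction j with
  | zero => intro _; simpa using hq0
  | succ j ih =>
    intro hj
    have h1 := ih (by omega)
    rw [hq j (by omega)]
    have h0 := abs_nonneg (q j)
    rw [pow_succ, abs_le]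
    constructor <;> nlinarith

/-! ### the residual along a stage -/

section
variable {e : ℕ} {L : ℕ → ℝ}

lemma coord_E_zero {k i : ℕ} (hi : i < e) : coord e (NN e k + i) 0 = 0 := by
  rw [coord_E hi, if_neg (by omega)]
lemma coord_E_one {k i : ℕ} (hi : i < e) : coord e (NN e k + i) 1 = 0 := by
  rw [coord_E hi, if_neg (by omega)]
lemma coord_A_zero {k i : ℕ} (hi : i < Mk e k) :
    coord e (NN e k + e + i) 0 = (1 / 2 : ℝ) ^ k := by
  rw [coord_A hi, if_pos rfl]
lemma coord_A_one {k i : ℕ} (hi : i < Mk e k) :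
    coord e (NN e k + e + i) 1 = (1 / 2 : ℝ) ^ (bb e k) := by
  rw [coord_A hi, if_neg (by omega), if_pos rfl]
lemma coord_B_zero {k i : ℕ} (hi : i ≤ Lk e k) : coord e (PP e k + i) 0 = 0 := by
  rw [coord_B hi, if_neg (by omega)]
lemma coord_B_one {k i : ℕ} (hi : i ≤ Lk e k) :
    coord e (PP e k + i) 1 = (1 / 2 : ℝ) ^ (bb e k + i) := by
  rw [coord_B hi, if_pos rfl]

lemma phi_A {k i : ℕ} (hi : i < Mk e k) (r : ℕ → ℝ) :
    phi e (NN e k + e + i) r = r 1 - eta e (k + 1) * r 0 := by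
  unfold phi; rw [stage_A hi, if_neg (by omega)]
lemma phi_B {k i : ℕ} (hi : i ≤ Lk e k) (r : ℕ → ℝ) :
    phi e (PP e k + i) r = r 1 - eta e (k + 1) * r 0 := by
  unfold phi; rw [stage_B hi, if_neg (by rw [PP_def]; omega)]
lemma phi_E {k i : ℕ} (hi : i < e) (r : ℕ → ℝ) :
    phi e (NN e k + i) r = r (i + 2) := by
  unfold phi; rw [stage_E hi]
  have : NN e k + i - NN e k = i := by omega
  rw [this, if_pos hi]

/-- `q_k(n) = s_n - η_{k+1} r_n` -/
noncomputable def qq (e : ℕ) (L : ℕ → ℝ) (k n : ℕ) : ℝ :=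
  res e L n 1 - eta e (k + 1) * res e L n 0

lemma res_E {k i : ℕ} (hi : i ≤ e) :
    res e L (NN e k + i) 0 = res e L (NN e k) 0 ∧ res e L (NN e k + i) 1 = res e L (NN e k) 1 := by
  induction i with
  | zero => simp
  | succ i ih =>
    obtain ⟨h1, h2⟩ := ih (by omega)
    rw [← add_assoc, res_succ, res_succ, coord_E_zero (by omega), coord_E_one (by omega), h1, h2]
    simp

lemma qq_A_step {k m : ℕ} (hm : m < Mk e k) :
    |qq e L k (NN e k + e + (m + 1))| =
      |(|qq e L k (NN e k + e + m)| - ((1 / 2 : ℝ) ^ (bb e k) - eta e (k + 1) * (1 / 2) ^ k))| := by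
  rw [← abs_sub_sg]
  congr 1
  unfold qq
  rw [← add_assoc, res_succ, res_succ, coord_A_zero hm, coord_A_one hm, phi_A hm]
  ring

lemma qq_B_step {k j : ℕ} (hj : j ≤ Lk e k) :
    |qq e L k (PP e k + (j + 1))| =
      |(|qq e L k (PP e k + j)| - (1 / 2 : ℝ) ^ (bb e k) * (1 / 2) ^ j)| := by
  rw [← abs_sub_sg]
  congr 1
  unfold qq
  rw [← add_assoc, res_succ, res_succ, coord_B_zero hj, coord_B_one hj, phi_B hj, pow_add]
  ring

lemma res_B_zero {k j : ℕ} (hj : j ≤ Lk e k + 1) :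
    res e L (PP e k + j) 0 = res e L (PP e k) 0 := by
  induction j with
  | zero => simp
  | succ j ih =>
    rw [← add_assoc, res_succ, coord_B_zero (by omega), ih (by omega)]; simp

/-- invariance of `s - η_k r` along the E and A parts of stage `k` -/
lemma inv_A {k m : ℕ} (hm : m ≤ Mk e k) :
    res e L (NN e k + e + m) 1 - eta e k * res e L (NN e k + e + m) 0
      = res e L (NN e k) 1 - eta e k * res e L (NN e k) 0 := by
  induction m with
  | zero =>
    obtain ⟨h1, h2⟩ := res_E (L := L) (k := k) (le_refl e)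
    rw [add_zero, h1, h2]
  | succ m ih =>
    rw [← add_assoc, res_succ, res_succ, coord_A_zero (by omega), coord_A_one (by omega),
      ← ih (by omega), ← half_mul_eta]
    ring

lemma cc_bounds (e k : ℕ) :
    (1 / 2 : ℝ) ^ (bb e k) / 2 ≤ (1 / 2 : ℝ) ^ (bb e k) - eta e (k + 1) * (1 / 2) ^ k ∧
    (1 / 2 : ℝ) ^ (bb e k) - eta e (k + 1) * (1 / 2) ^ k ≤ (1 / 2 : ℝ) ^ (bb e k) := by
  have h1 := eta_succ_le e k
  have h2 := half_mul_eta e k
  have h3 : (0:ℝ) < (1/2)^k := by positivity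
  have h4 := eta_pos e (k+1)
  constructor
  · nlinarith
  · nlinarith

end

section
variable {e : ℕ} {L : ℕ → ℝ}

lemma PP_eq' (e k : ℕ) : PP e k = NN e k + e + Mk e k := rfl

/-- at the end of the A part of a late stage, `q` is small -/
lemma qq_end_A {k : ℕ} (hk : |L 0| + |L 1| ≤ k) :
    |qq e L k (PP e k)| ≤ (1 / 2 : ℝ) ^ (bb e k) - eta e (k + 1) * (1 / 2) ^ k := by
  obtain ⟨hc1, hc2⟩ := cc_bounds e k
  have hpos : (0:ℝ) < (1 / 2 : ℝ) ^ (bb e k) := by positivity
  set c := (1 / 2 : ℝ) ^ (bb e k) - eta e (k + 1) * (1 / 2) ^ k with hc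
  have h := block_equal (q := fun m => qq e L k (NN e k + e + m)) (c := c) (M := Mk e k)
    (by linarith) (fun m hm => qq_A_step hm) (Mk e k) le_rfl
  simp only [add_zero] at h
  rw [← PP_def] at h
  refine h.trans (max_le le_rfl ?_)
  have h0 := abs_res_le e L (NN e k) 0
  have h1 := abs_res_le e L (NN e k) 1
  have hq0 : |qq e L k (NN e k + e)| ≤ |L 0| + |L 1| + 2 * NN e k := by
    obtain ⟨g1, g2⟩ := res_E (L := L) (k := k) (le_refl e)
    unfold qq
    rw [g1, g2]
    have h2 := abs_sub (res e L (NN e k) 1) (eta e (k + 1) * res e L (NN e k) 0)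
    rw [abs_mul, abs_of_pos (eta_pos _ _)] at h2
    have h3 := eta_le_one e (k + 1)
    have h4 : eta e (k + 1) * |res e L (NN e k) 0| ≤ |res e L (NN e k) 0| :=
      mul_le_of_le_one_left (abs_nonneg _) h3
    linarith
  have hM : (k : ℝ) + 2 * NN e k + 1 ≤ Mk e k * c := by
    have : (Mk e k : ℝ) = 2 ^ (bb e k + 1) * (k + 2 * NN e k + 1) := by
      rw [Mk_eq]; push_cast; ring
    rw [this]
    have h5 : (2 : ℝ) ^ (bb e k + 1) * ((1 / 2 : ℝ) ^ (bb e k) / 2) = 1 := by
      rw [pow_succ]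
      have : (2 : ℝ) ^ (bb e k) * (1 / 2 : ℝ) ^ (bb e k) = 1 := by
        rw [← mul_pow]; norm_num
      linarith
    have h6 : (0:ℝ) ≤ k + 2 * NN e k + 1 := by positivity
    calc (k : ℝ) + 2 * NN e k + 1
        = (2 : ℝ) ^ (bb e k + 1) * (k + 2 * NN e k + 1) * ((1 / 2 : ℝ) ^ (bb e k) / 2) := by
          linear_combination (-(k + 2 * NN e k + 1 : ℝ)) * h5
      _ ≤ _ := by gcongr
  linarith

/-- `q` along the B part -/
lemma qq_B {k j : ℕ} (hk : |L 0| + |L 1| ≤ k) (hj : j ≤ Lk e k + 1) :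
    |qq e L k (PP e k + j)| ≤ 2 * (1 / 2 : ℝ) ^ (bb e k) * (1 / 2) ^ j := by
  obtain ⟨hc1, hc2⟩ := cc_bounds e k
  have hpos : (0:ℝ) < (1 / 2 : ℝ) ^ (bb e k) := by positivity
  refine block_halving (q := fun j => qq e L k (PP e k + j)) (J := Lk e k + 1) ?_ ?_ j hj
  · simp only [add_zero]
    have := qq_end_A (e := e) hk
    linarith
  · intro j hj
    exact qq_B_step (by omega)

/-- end of stage -/
lemma qq_end {k : ℕ} (hk : |L 0| + |L 1| ≤ k) :
    |qq e L k (NN e (k + 1))| ≤ (1 / 2 : ℝ) ^ (bb e (k + 1)) := by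
  have h := qq_B (e := e) (L := L) (k := k) (j := Lk e k + 1) hk le_rfl
  rw [← add_assoc, ← NN_succ] at h
  refine h.trans (le_of_eq ?_)
  rw [bb_succ, pow_add, pow_succ]; ring

lemma delta_pos (e k : ℕ) : 0 < eta e k - eta e (k + 1) ∧ eta e k / 2 ≤ eta e k - eta e (k + 1) := by
  have h1 := eta_succ_le e k
  have h2 := eta_pos e k
  constructor <;> linarith

lemma qq_next {k n : ℕ} : qq e L (k + 1) n =
    (res e L n 1 - eta e (k + 1) * res e L n 0) + (eta e (k + 1) - eta e (k + 2)) * res e L n 0 := by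
  unfold qq; ring

/-- the X-residual during and after the A part of stage `k+1` -/
lemma res_A_bound {k m : ℕ} (hk : |L 0| + |L 1| ≤ k) (hm : m ≤ Mk e (k + 1)) :
    |res e L (NN e (k + 1) + e + m) 0| ≤ |res e L (NN e (k + 1)) 0| + 5 * (1 / 2) ^ (k + 1) := by
  obtain ⟨hc1, hc2⟩ := cc_bounds e (k + 1)
  obtain ⟨hd1, hd2⟩ := delta_pos e (k + 1)
  have hpos : (0:ℝ) < (1 / 2 : ℝ) ^ (bb e (k + 1)) := by positivity
  have hη := half_mul_eta e (k + 1)
  have hηp := eta_pos e (k + 1)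
  set x : ℝ := (1 / 2 : ℝ) ^ (k + 1) with hx
  have hxp : 0 < x := by positivity
  set Δ := eta e (k + 1) - eta e (k + 1 + 1) with hΔ
  set c := (1 / 2 : ℝ) ^ (bb e (k + 1)) - eta e (k + 1 + 1) * x with hc
  have hcx : c = x * Δ := by rw [hc, hΔ, ← hη]; ring
  have hblk := block_equal (q := fun m => qq e L (k + 1) (NN e (k + 1) + e + m)) (c := c)
    (M := Mk e (k + 1)) (by linarith) (fun m hm => qq_A_step hm) m hm
  simp only [add_zero] at hblk
  have hQ := qq_end (e := e) hk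
  set r0 := res e L (NN e (k + 1)) 0 with hr0
  set r := res e L (NN e (k + 1) + e + m) 0 with hr
  set Q := qq e L k (NN e (k + 1)) with hQdef
  -- values of q
  have hqm : qq e L (k + 1) (NN e (k + 1) + e + m) = Q + Δ * r := by
    rw [qq_next, inv_A hm]; rfl
  have hq0 : qq e L (k + 1) (NN e (k + 1) + e) = Q + Δ * r0 := by
    have h := inv_A (e := e) (L := L) (k := k + 1) (m := 0) (Nat.zero_le _)
    have g := (res_E (L := L) (k := k + 1) (le_refl e)).1
    rw [add_zero] at h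
    rw [qq_next, h, g]; rfl
  rw [hqm, hq0] at hblk
  have hub : |Q + Δ * r| ≤ c + |Q| + Δ * |r0| := by
    refine hblk.trans (max_le ?_ ?_)
    · have := abs_nonneg Q; have := abs_nonneg r0; have : 0 ≤ Δ * |r0| := by positivity
      linarith
    · have h1 := abs_add_le Q (Δ * r0)
      rw [abs_mul, abs_of_pos hd1] at h1
      have h2 : 0 ≤ (m:ℝ) * c := by
        have : 0 ≤ c := by linarith
        positivity
      linarith
  have h3 : Δ * |r| ≤ c + 2 * |Q| + Δ * |r0| := by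
    have : Δ * |r| = |Δ * r| := by rw [abs_mul, abs_of_pos hd1]
    rw [this]
    have h4 : Δ * r = (Q + Δ * r) - Q := by ring
    rw [h4]
    have := abs_sub (Q + Δ * r) Q
    linarith
  have h5 : |Q| ≤ x * eta e (k + 1) := by rw [hη]; exact hQ
  have h6 : |Q| ≤ 2 * x * Δ := by
    have : x * eta e (k + 1) ≤ x * (2 * Δ) := by gcongr; linarith
    linarith
  have h7 : Δ * |r| ≤ Δ * (|r0| + 5 * x) := by
    rw [hcx] at h3
    linarith
  exact le_of_mul_le_mul_left h7 hd1

lemma res_A_end {k : ℕ} (hk : |L 0| + |L 1| ≤ k) :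
    |res e L (PP e (k + 1)) 0| ≤ 3 * (1 / 2) ^ (k + 1) := by
  obtain ⟨hc1, hc2⟩ := cc_bounds e (k + 1)
  obtain ⟨hd1, hd2⟩ := delta_pos e (k + 1)
  have hη := half_mul_eta e (k + 1)
  set x : ℝ := (1 / 2 : ℝ) ^ (k + 1) with hx
  have hxp : 0 < x := by positivity
  set Δ := eta e (k + 1) - eta e (k + 1 + 1) with hΔ
  have hQ := qq_end (e := e) hk
  set r := res e L (PP e (k + 1)) 0 with hr
  set Q := qq e L k (NN e (k + 1)) with hQdef
  have hqm : qq e L (k + 1) (PP e (k + 1)) = Q + Δ * r := by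
    rw [qq_next]
    have := inv_A (e := e) (L := L) (k := k + 1) (m := Mk e (k + 1)) le_rfl
    rw [← PP_def] at this
    rw [this]; rfl
  have hk1 : |L 0| + |L 1| ≤ ((k + 1 : ℕ) : ℝ) := by push_cast; linarith
  have h1 := qq_end_A (e := e) hk1
  rw [hqm] at h1
  have h5 : |Q| ≤ x * eta e (k + 1) := by rw [hη]; exact hQ
  have h6 : |Q| ≤ 2 * x * Δ := by
    have : x * eta e (k + 1) ≤ x * (2 * Δ) := by gcongr; linarith
    linarith
  have hcx : (1 / 2 : ℝ) ^ (bb e (k + 1)) - eta e (k + 1 + 1) * (1 / 2) ^ (k + 1) = x * Δ := by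
    rw [hΔ, ← hη]; ring
  rw [hcx] at h1
  have h3 : Δ * |r| ≤ Δ * (3 * x) := by
    have : Δ * |r| = |Δ * r| := by rw [abs_mul, abs_of_pos hd1]
    rw [this]
    have h4 : Δ * r = (Q + Δ * r) - Q := by ring
    rw [h4]
    have := abs_sub (Q + Δ * r) Q
    linarith
  exact le_of_mul_le_mul_left h3 hd1

lemma res_end {k : ℕ} (hk : |L 0| + |L 1| ≤ k) :
    |res e L (NN e (k + 2)) 0| ≤ 3 * (1 / 2) ^ (k + 1) := by
  have h : NN e (k + 2) = PP e (k + 1) + (Lk e (k + 1) + 1) := by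
    rw [NN_succ, add_assoc]
  rw [h, res_B_zero le_rfl]
  exact res_A_end hk

/-- every index of stage `k` is in one of three parts -/
lemma stage_cases {k n : ℕ} (h1 : NN e k ≤ n) (h2 : n < NN e (k + 1)) :
    (∃ i, i ≤ e ∧ n = NN e k + i) ∨ (∃ m, m ≤ Mk e k ∧ n = NN e k + e + m) ∨
      (∃ j, j ≤ Lk e k + 1 ∧ n = PP e k + j) := by
  rw [NN_succ] at h2
  rcases le_total n (NN e k + e) with h | h
  · exact Or.inl ⟨n - NN e k, by omega, by omega⟩
  · rcases le_total n (PP e k) with h' | h'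
    · refine Or.inr (Or.inl ⟨n - (NN e k + e), ?_, by omega⟩)
      rw [PP_def] at h'; omega
    · exact Or.inr (Or.inr ⟨n - PP e k, by omega, by omega⟩)

/-- bound of the residual for all late times -/
lemma res_late {k n : ℕ} (hk : |L 0| + |L 1| ≤ k) (h1 : NN e (k + 2) ≤ n)
    (h2 : n < NN e (k + 3)) :
    |res e L n 0| ≤ 8 * (1 / 2) ^ (k + 1) ∧ |res e L n 1| ≤ 20 * (1 / 2) ^ (k + 1) := by
  have hk1 : |L 0| + |L 1| ≤ ((k + 1 : ℕ) : ℝ) := by push_cast; linarith
  have hk2 : |L 0| + |L 1| ≤ ((k + 2 : ℕ) : ℝ) := by push_cast; linarith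
  have hend := res_end (e := e) hk
  have hx : (1 / 2 : ℝ) ^ (k + 2) = (1 / 2) ^ (k + 1) / 2 := by rw [pow_succ]; ring
  have hxp : (0:ℝ) < (1 / 2) ^ (k + 1) := by positivity
  -- Q at the start of stage k+2
  have hQ := qq_end (e := e) hk1
  have hb : (1 / 2 : ℝ) ^ (bb e (k + 1 + 1)) ≤ (1 / 2) ^ (k + 1) :=
    pow_le_pow_of_le_one (by norm_num) (by norm_num) (by have := bb_ge e (k + 1 + 1); omega)
  have hη1 := eta_le_one e (k + 2)
  have hη0 := eta_pos e (k + 2)
  have hη1' := eta_le_one e (k + 3)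
  have hη0' := eta_pos e (k + 3)
  unfold qq at hQ
  -- from a bound on r and the invariance get a bound on s
  have hs : ∀ r s : ℝ, |r| ≤ 8 * (1 / 2) ^ (k + 1) →
      s - eta e (k + 2) * r = res e L (NN e (k + 2)) 1 - eta e (k + 2) * res e L (NN e (k + 2)) 0 →
      |s| ≤ 20 * (1 / 2) ^ (k + 1) := by
    intro r s hr hs
    have h3 : s = (s - eta e (k + 2) * r) + eta e (k + 2) * r := by ring
    rw [h3, hs]
    have h4 := abs_add_le (res e L (NN e (k + 2)) 1 - eta e (k + 2) * res e L (NN e (k + 2)) 0)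
      (eta e (k + 2) * r)
    rw [abs_mul, abs_of_pos hη0] at h4
    have h5 : eta e (k + 2) * |r| ≤ |r| := mul_le_of_le_one_left (abs_nonneg _) hη1
    have h6 : |res e L (NN e (k + 2)) 1 - eta e (k + 2) * res e L (NN e (k + 2)) 0| ≤
      (1 / 2) ^ (k + 1) := hQ.trans hb
    linarith
  rcases stage_cases h1 h2 with ⟨i, hi, rfl⟩ | ⟨m, hm, rfl⟩ | ⟨j, hj, rfl⟩
  · obtain ⟨g1, g2⟩ := res_E (L := L) (k := k + 2) hi
    have hr : |res e L (NN e (k + 2) + i) 0| ≤ 8 * (1 / 2) ^ (k + 1) := by rw [g1]; linarith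
    exact ⟨hr, hs _ _ hr (by rw [g1, g2])⟩
  · have hb2 := res_A_bound (e := e) hk1 (m := m) hm
    have hr : |res e L (NN e (k + 2) + e + m) 0| ≤ 8 * (1 / 2) ^ (k + 1) := by
      have h3 : (5:ℝ) * (1 / 2) ^ (k + 1 + 1) = 5 * ((1 / 2) ^ (k + 1) / 2) := by rw [← hx]
      rw [h3] at hb2
      linarith
    exact ⟨hr, hs _ _ hr (inv_A hm)⟩
  · have hr : |res e L (PP e (k + 2) + j) 0| ≤ 8 * (1 / 2) ^ (k + 1) := by
      rw [res_B_zero hj]
      have := res_A_end (e := e) hk1
      have h3 : (3:ℝ) * (1 / 2) ^ (k + 1 + 1) = 3 * ((1 / 2) ^ (k + 1) / 2) := by rw [← hx]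
      rw [h3] at this
      linarith
    refine ⟨hr, ?_⟩
    have hq := qq_B (e := e) hk2 (j := j) hj
    have h4 : |qq e L (k + 2) (PP e (k + 2) + j)| ≤ 2 * (1 / 2) ^ (k + 1) := by
      refine hq.trans ?_
      have h5 : (1 / 2 : ℝ) ^ j ≤ 1 := pow_le_one₀ (by norm_num) (by norm_num)
      have h6 : (0:ℝ) ≤ 2 * (1 / 2 : ℝ) ^ (bb e (k + 2)) := by positivity
      calc 2 * (1 / 2 : ℝ) ^ (bb e (k + 2)) * (1 / 2) ^ j ≤ 2 * (1 / 2 : ℝ) ^ (bb e (k + 2)) * 1 := by
            gcongr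
        _ ≤ _ := by rw [mul_one]; gcongr
    have h5 : res e L (PP e (k + 2) + j) 1 = qq e L (k + 2) (PP e (k + 2) + j) +
        eta e (k + 3) * res e L (PP e (k + 2) + j) 0 := by unfold qq; ring
    rw [h5]
    have h6 := abs_add_le (qq e L (k + 2) (PP e (k + 2) + j))
      (eta e (k + 3) * res e L (PP e (k + 2) + j) 0)
    rw [abs_mul, abs_of_pos hη0'] at h6
    have h7 : eta e (k + 3) * |res e L (PP e (k + 2) + j) 0| ≤ |res e L (PP e (k + 2) + j) 0| :=
      mul_le_of_le_one_left (abs_nonneg _) hη1'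
    linarith

lemma tendsto_res_XY (e : ℕ) (L : ℕ → ℝ) :
    Tendsto (fun n => res e L n 0) atTop (𝓝 0) ∧ Tendsto (fun n => res e L n 1) atTop (𝓝 0) := by
  obtain ⟨k0, hk0⟩ := exists_nat_ge (|L 0| + |L 1|)
  have hstage : Tendsto (fun n => (40 : ℝ) * (1 / 2) ^ (stage e n)) atTop (𝓝 0) := by
    have h1 : Tendsto (fun k : ℕ => (40 : ℝ) * (1 / 2) ^ k) atTop (𝓝 (40 * 0)) :=
      (tendsto_pow_atTop_nhds_zero_of_lt_one (by norm_num) (by norm_num)).const_mul 40
    rw [mul_zero] at h1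
    exact h1.comp (tendsto_stage e)
  have hbound : ∀ n, NN e (k0 + 2) ≤ n → |res e L n 0| ≤ 40 * (1 / 2) ^ (stage e n) ∧
      |res e L n 1| ≤ 40 * (1 / 2) ^ (stage e n) := by
    intro n hn
    have h1 := le_stage hn
    obtain ⟨k, hk⟩ : ∃ k, stage e n = k + 2 := ⟨stage e n - 2, by omega⟩
    have hkk : |L 0| + |L 1| ≤ (k : ℝ) := by
      refine hk0.trans ?_
      have : k0 ≤ k := by omega
      exact_mod_cast this
    have h2 := NN_stage_le e n
    have h3 := lt_NN_stage_succ e n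
    rw [hk] at h2 h3
    obtain ⟨h4, h5⟩ := res_late hkk h2 h3
    rw [hk]
    have hx : (1 / 2 : ℝ) ^ (k + 2) = (1 / 2) ^ (k + 1) / 2 := by rw [pow_succ]; ring
    have hxp : (0:ℝ) < (1 / 2) ^ (k + 1) := by positivity
    rw [hx]
    constructor <;> linarith
  constructor
  · apply squeeze_zero_norm' _ hstage
    filter_upwards [eventually_ge_atTop (NN e (k0 + 2))] with n hn
    rw [Real.norm_eq_abs]
    exact (hbound n hn).1
  · apply squeeze_zero_norm' _ hstage
    filter_upwards [eventually_ge_atTop (NN e (k0 + 2))] with n hn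
    rw [Real.norm_eq_abs]
    exact (hbound n hn).2

/-- the partial sums of an extra coordinate diverge -/
lemma sum_coord_extra (e c : ℕ) (hc : c < e) :
    Tendsto (fun N => ∑ n ∈ Finset.range N, coord e n (c + 2)) atTop atTop := by
  have hmono : Monotone (fun N => ∑ n ∈ Finset.range N, coord e n (c + 2)) := by
    apply monotone_nat_of_le_succ
    intro n
    rw [Finset.sum_range_succ]
    have := coord_nonneg e n (c + 2)
    linarith
  apply tendsto_atTop_of_monotone_of_subseq hmono (φ := NN e) (l := atTop)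
  refine tendsto_atTop_mono (f := fun k => ∑ i ∈ Finset.range k, (1 / ((i : ℝ) + 1))) ?_
    Real.tendsto_sum_range_one_div_nat_succ_atTop
  intro k
  induction k with
  | zero => simp [NN_zero]
  | succ k ih =>
    simp only [Function.comp] at ih ⊢
    rw [Finset.sum_range_succ]
    have h1 : ∑ n ∈ Finset.range (NN e k + c), coord e n (c + 2) + coord e (NN e k + c) (c + 2) =
        ∑ n ∈ Finset.range (NN e k + c + 1), coord e n (c + 2) := by
      rw [Finset.sum_range_succ]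
    have h2 : ∑ n ∈ Finset.range (NN e k), coord e n (c + 2) ≤
        ∑ n ∈ Finset.range (NN e k + c), coord e n (c + 2) := hmono (by omega)
    have h3 : ∑ n ∈ Finset.range (NN e k + c + 1), coord e n (c + 2) ≤
        ∑ n ∈ Finset.range (NN e (k + 1)), coord e n (c + 2) :=
      hmono (by rw [NN_succ, PP_def]; omega)
    rw [coord_E hc, if_pos rfl] at h1
    linarith

lemma tendsto_res_extra (e : ℕ) (L : ℕ → ℝ) (c : ℕ) (hc : c < e) :
    Tendsto (fun n => res e L n (c + 2)) atTop (𝓝 0) := by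
  apply greedy_tendsto (u := fun n => coord e n (c + 2)) (fun n => coord_nonneg _ _ _)
    (tendsto_coord _ _) (sum_coord_extra e c hc)
  intro n
  rw [res_succ]
  by_cases h0 : coord e n (c + 2) = 0
  · rw [h0]; simp
  · -- then `n = NN k + c`
    have hn : n = NN e (stage e n) + c := by
      have h1 := NN_stage_le e n
      by_contra hne
      apply h0
      unfold coord
      split_ifs <;> first | rfl | omega | contradiction
    have hphi : phi e n (res e L n) = res e L n (c + 2) := by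
      unfold phi
      have h2 : n - NN e (stage e n) = c := by omega
      rw [h2, if_pos hc]
    rw [hphi]
    exact abs_sub_sg _ _

end

/-! ### upper bound for the dimension -/

/-- the sum of the first `N` terms in coordinate `t` -/
noncomputable def psum (e : ℕ) (x : SignSeq) (t N : ℕ) : ℝ :=
  ∑ n ∈ Finset.range N, x.val n * coord e n t

lemma psum_succ (e : ℕ) (x : SignSeq) (t N : ℕ) :
    psum e x t (N + 1) = psum e x t N + x.val N * coord e N t := Finset.sum_range_succ _ _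

lemma abs_val (x : SignSeq) (n : ℕ) : |x.val n| = 1 := by
  rcases x.mem n with h | h <;> rw [h] <;> simp

section
variable {e : ℕ} {x : SignSeq}

lemma psum_E {k i : ℕ} (hi : i ≤ e) :
    psum e x 0 (NN e k + i) = psum e x 0 (NN e k) ∧
      psum e x 1 (NN e k + i) = psum e x 1 (NN e k) := by
  induction i with
  | zero => simp
  | succ i ih =>
    obtain ⟨h1, h2⟩ := ih (by omega)
    rw [← add_assoc, psum_succ, psum_succ, coord_E_zero (by omega), coord_E_one (by omega), h1, h2]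
    simp

lemma psum_A {k m : ℕ} (hm : m ≤ Mk e k) :
    psum e x 1 (NN e k + e + m) - psum e x 1 (NN e k)
      = eta e k * (psum e x 0 (NN e k + e + m) - psum e x 0 (NN e k)) := by
  induction m with
  | zero =>
    obtain ⟨h1, h2⟩ := psum_E (x := x) (k := k) (le_refl e)
    rw [add_zero, h1, h2]; ring
  | succ m ih =>
    rw [← add_assoc, psum_succ, psum_succ, coord_A_zero (by omega), coord_A_one (by omega),
      ← half_mul_eta]
    linear_combination ih (by omega)

lemma psum_B {k j : ℕ} (hj : j ≤ Lk e k + 1) :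
    |psum e x 1 (PP e k + j) - psum e x 1 (PP e k)|
      ≤ 2 * (1 / 2 : ℝ) ^ (bb e k) * (1 - (1 / 2) ^ j) := by
  induction j with
  | zero => simp
  | succ j ih =>
    rw [← add_assoc, psum_succ, coord_B_one (by omega)]
    have h1 := ih (by omega)
    have h2 := abs_add_le (psum e x 1 (PP e k + j) - psum e x 1 (PP e k))
      (x.val (PP e k + j) * (1 / 2 : ℝ) ^ (bb e k + j))
    have h3 : |x.val (PP e k + j) * (1 / 2 : ℝ) ^ (bb e k + j)| =
        (1 / 2 : ℝ) ^ (bb e k) * (1 / 2) ^ j := by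
      rw [abs_mul, abs_val, one_mul, abs_of_pos (by positivity), pow_add]
    rw [h3] at h2
    have h4 : psum e x 1 (PP e k + j) + x.val (PP e k + j) * (1 / 2) ^ (bb e k + j)
        - psum e x 1 (PP e k) = (psum e x 1 (PP e k + j) - psum e x 1 (PP e k)) +
        x.val (PP e k + j) * (1 / 2) ^ (bb e k + j) := by ring
    rw [h4]
    refine h2.trans ?_
    rw [pow_succ]
    linarith

lemma pow_bb_le_eta (e k : ℕ) : (1 / 2 : ℝ) ^ (bb e k) ≤ eta e k := by
  rw [← half_mul_eta]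
  exact mul_le_of_le_one_left (eta_pos e k).le (pow_le_one₀ (by norm_num) (by norm_num))

/-- change of Y over one late stage -/
lemma psum_stage {L0 : ℝ} {i : ℕ} (hX : ∀ n, NN e i ≤ n → |psum e x 0 n - L0| ≤ 1) :
    |psum e x 1 (NN e (i + 1)) - psum e x 1 (NN e i)| ≤ 4 * eta e i := by
  have hA := psum_A (x := x) (k := i) (m := Mk e i) le_rfl
  rw [← PP_def] at hA
  have hB := psum_B (x := x) (k := i) (j := Lk e i + 1) le_rfl
  rw [← add_assoc, ← NN_succ] at hB
  have h1 := hX (NN e i) le_rfl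
  have h2 := hX (PP e i) (by rw [PP_def]; omega)
  have h3 : |psum e x 0 (PP e i) - psum e x 0 (NN e i)| ≤ 2 := by
    rw [abs_le] at h1 h2 ⊢
    constructor <;> linarith
  have h4 : |psum e x 1 (PP e i) - psum e x 1 (NN e i)| ≤ eta e i * 2 := by
    rw [hA, abs_mul, abs_of_pos (eta_pos e i)]
    exact mul_le_mul_of_nonneg_left h3 (eta_pos e i).le
  have h5 : 2 * (1 / 2 : ℝ) ^ (bb e i) * (1 - (1 / 2) ^ (Lk e i + 1)) ≤ 2 * eta e i := by
    have h6 := pow_bb_le_eta e i
    have h7 : (0:ℝ) ≤ (1 / 2) ^ (Lk e i + 1) := by positivity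
    have h8 : (0:ℝ) ≤ (1 / 2 : ℝ) ^ (bb e i) := by positivity
    nlinarith
  have h9 : psum e x 1 (NN e (i + 1)) - psum e x 1 (NN e i) =
      (psum e x 1 (NN e (i + 1)) - psum e x 1 (PP e i)) +
      (psum e x 1 (PP e i) - psum e x 1 (NN e i)) := by ring
  rw [h9]
  have := abs_add_le (psum e x 1 (NN e (i + 1)) - psum e x 1 (PP e i))
    (psum e x 1 (PP e i) - psum e x 1 (NN e i))
  linarith

lemma psum_tail {L0 : ℝ} {k : ℕ} (hX : ∀ n, NN e k ≤ n → |psum e x 0 n - L0| ≤ 1) (m : ℕ) :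
    |psum e x 1 (NN e (k + m)) - psum e x 1 (NN e k)| ≤ 8 * (eta e k - eta e (k + m)) := by
  induction m with
  | zero => simp
  | succ m ih =>
    have h1 := psum_stage (x := x) (L0 := L0) (i := k + m)
      (fun n hn => hX n (((NN_strictMono e).monotone (by omega)).trans hn))
    have h2 := eta_succ_le e (k + m)
    have h3 : psum e x 1 (NN e (k + (m + 1))) - psum e x 1 (NN e k) =
      (psum e x 1 (NN e (k + m + 1)) - psum e x 1 (NN e (k + m))) +
      (psum e x 1 (NN e (k + m)) - psum e x 1 (NN e k)) := by rw [← add_assoc]; ring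
    rw [h3]
    have h4 := abs_add_le (psum e x 1 (NN e (k + m + 1)) - psum e x 1 (NN e (k + m)))
      (psum e x 1 (NN e (k + m)) - psum e x 1 (NN e k))
    rw [← add_assoc]
    linarith

lemma psum_limit {L0 L1 : ℝ} {k : ℕ} (hX : ∀ n, NN e k ≤ n → |psum e x 0 n - L0| ≤ 1)
    (hY : Tendsto (psum e x 1) atTop (𝓝 L1)) : |psum e x 1 (NN e k) - L1| ≤ 8 * eta e k := by
  have h1 : Tendsto (fun m => |psum e x 1 (NN e (k + m)) - psum e x 1 (NN e k)|) atTop
      (𝓝 |L1 - psum e x 1 (NN e k)|) := by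
    apply Tendsto.abs
    apply Tendsto.sub_const
    apply hY.comp
    apply (NN_strictMono e).tendsto_atTop.comp
    exact tendsto_add_atTop_nat k |>.congr (fun m => by rw [add_comm])
  rw [abs_sub_comm]
  refine le_of_tendsto h1 (Eventually.of_forall fun m => (psum_tail hX m).trans ?_)
  have := eta_pos e (k + m)
  linarith

end

/-- binary sums separate sign patterns -/
lemma binsep {σ τ : ℕ → ℝ} (hσ : ∀ n, σ n = 1 ∨ σ n = -1) (hτ : ∀ n, τ n = 1 ∨ τ n = -1) (n : ℕ)
    (h : ∃ j < n, σ j ≠ τ j) :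
    4 * (1 / 2 : ℝ) ^ n ≤ |∑ j ∈ Finset.range n, (σ j - τ j) * (1 / 2) ^ j| := by
  induction n with
  | zero => obtain ⟨j, hj, _⟩ := h; omega
  | succ n ih =>
    rw [Finset.sum_range_succ, pow_succ]
    set D := ∑ j ∈ Finset.range n, (σ j - τ j) * (1 / 2 : ℝ) ^ j with hD
    have hp : (0:ℝ) < (1 / 2) ^ n := by positivity
    by_cases hex : ∃ j < n, σ j ≠ τ j
    · have h1 := ih hex
      have h2 : |(σ n - τ n) * (1 / 2 : ℝ) ^ n| ≤ 2 * (1 / 2) ^ n := by
        rw [abs_mul, abs_of_pos hp]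
        apply mul_le_mul_of_nonneg_right _ hp.le
        rcases hσ n with h | h <;> rcases hτ n with h' | h' <;> rw [h, h'] <;> norm_num
      have h3 : D = (D + (σ n - τ n) * (1 / 2 : ℝ) ^ n) - (σ n - τ n) * (1 / 2 : ℝ) ^ n := by ring
      have h4 := abs_sub (D + (σ n - τ n) * (1 / 2 : ℝ) ^ n) ((σ n - τ n) * (1 / 2 : ℝ) ^ n)
      rw [← h3] at h4
      linarith
    · push Not at hex
      have hD0 : D = 0 := by
        rw [hD]
        apply Finset.sum_eq_zero
        intro j hj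
        rw [hex j (Finset.mem_range.mp hj)]; ring
      obtain ⟨j, hj, hne⟩ := h
      have hjn : j = n := by
        by_contra hjn
        exact hne (hex j (by omega))
      subst hjn
      rw [hD0, zero_add, abs_mul, abs_of_pos hp]
      have : |σ j - τ j| = 2 := by
        rcases hσ j with h | h <;> rcases hτ j with h' | h' <;> rw [h, h'] at hne ⊢ <;>
          first | exact absurd rfl hne | norm_num
      rw [this]; linarith

/-- the part of `E_L` whose first coordinate stays within `1` of its limit from stage `k1` on -/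
def FF (e : ℕ) (L0 L1 : ℝ) (k1 : ℕ) : Set SignSeq :=
  {x | Tendsto (psum e x 1) atTop (𝓝 L1) ∧ ∀ n, NN e k1 ≤ n → |psum e x 0 n - L0| ≤ 1}

/-- the bin index -/
noncomputable def bin (e : ℕ) (L1 : ℝ) (k : ℕ) (x : SignSeq) : ℕ :=
  ⌊(psum e x 1 (NN e (k + 1)) - L1) * 2 ^ (bb e (k + 1)) + 2 ^ (k + 4)⌋₊

/-- the covering sets -/
def TT (e : ℕ) (L0 L1 : ℝ) (k1 k : ℕ) (p : (Fin (PP e k) → Bool) × Fin (2 ^ (k + 5) + 1)) :
    Set SignSeq :=
  {x | x ∈ FF e L0 L1 k1 ∧ (∀ i : Fin (PP e k), p.1 i = true ↔ x.val i = 1) ∧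
    bin e L1 k x = p.2}

lemma bin_aux {e : ℕ} {L0 L1 : ℝ} {k1 k : ℕ} (hk : k1 ≤ k) {x : SignSeq}
    (hx : x ∈ FF e L0 L1 k1) :
    0 ≤ (psum e x 1 (NN e (k + 1)) - L1) * 2 ^ (bb e (k + 1)) + 2 ^ (k + 4) ∧
    (psum e x 1 (NN e (k + 1)) - L1) * 2 ^ (bb e (k + 1)) + 2 ^ (k + 4) ≤ 2 ^ (k + 5) := by
  have h1 := psum_limit (k := k + 1)
    (fun n hn => hx.2 n (((NN_strictMono e).monotone (by omega)).trans hn)) hx.1
  have h2 : 8 * eta e (k + 1) * 2 ^ (bb e (k + 1)) = 2 ^ (k + 4) := by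
    unfold eta
    have : (1 / 2 : ℝ) ^ (bb e (k + 1)) * 2 ^ (bb e (k + 1)) = 1 := by
      rw [← mul_pow]; norm_num
    calc 8 * ((2:ℝ) ^ (k + 1) * (1 / 2 : ℝ) ^ (bb e (k + 1))) * 2 ^ (bb e (k + 1))
        = 8 * 2 ^ (k + 1) * ((1 / 2 : ℝ) ^ (bb e (k + 1)) * 2 ^ (bb e (k + 1))) := by ring
      _ = _ := by rw [this]; ring
  have hpos : (0:ℝ) < 2 ^ (bb e (k + 1)) := by positivity
  rw [abs_le] at h1
  have h3 : (psum e x 1 (NN e (k + 1)) - L1) * 2 ^ (bb e (k + 1)) ≤
      8 * eta e (k + 1) * 2 ^ (bb e (k + 1)) := mul_le_mul_of_nonneg_right h1.2 hpos.le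
  have h4 : -(8 * eta e (k + 1)) * 2 ^ (bb e (k + 1)) ≤
      (psum e x 1 (NN e (k + 1)) - L1) * 2 ^ (bb e (k + 1)) :=
    mul_le_mul_of_nonneg_right h1.1 hpos.le
  have h5 : (2:ℝ) ^ (k + 5) = 2 * 2 ^ (k + 4) := by ring
  constructor <;> nlinarith

lemma FF_subset {e : ℕ} {L0 L1 : ℝ} {k1 k : ℕ} (hk : k1 ≤ k) :
    FF e L0 L1 k1 ⊆ ⋃ p, TT e L0 L1 k1 k p := by
  classical
  intro x hx
  rw [mem_iUnion]
  obtain ⟨h1, h2⟩ := bin_aux hk hx
  have hb : bin e L1 k x < 2 ^ (k + 5) + 1 := by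
    have : bin e L1 k x ≤ 2 ^ (k + 5) := by
      unfold bin
      apply Nat.floor_le_of_le
      push_cast
      exact h2
    omega
  exact ⟨(fun i => decide (x.val i = 1), ⟨bin e L1 k x, hb⟩), hx, by simp, rfl⟩

lemma psum_congr {e : ℕ} {x y : SignSeq} {N : ℕ} (h : ∀ n < N, x.val n = y.val n) (t : ℕ) :
    psum e x t N = psum e y t N := by
  unfold psum
  apply Finset.sum_congr rfl
  intro n hn
  rw [h n (Finset.mem_range.mp hn)]

lemma psum_B_eq {e : ℕ} {x : SignSeq} {k j : ℕ} (hj : j ≤ Lk e k + 1) :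
    psum e x 1 (PP e k + j) = psum e x 1 (PP e k) +
      (1 / 2 : ℝ) ^ (bb e k) * ∑ i ∈ Finset.range j, x.val (PP e k + i) * (1 / 2) ^ i := by
  induction j with
  | zero => simp
  | succ j ih =>
    rw [← add_assoc, psum_succ, coord_B_one (by omega), ih (by omega), Finset.sum_range_succ,
      pow_add]
    ring

lemma TT_agree {e : ℕ} {L0 L1 : ℝ} {k1 k : ℕ} (hk : k1 ≤ k) {p} {x y : SignSeq}
    (hx : x ∈ TT e L0 L1 k1 k p) (hy : y ∈ TT e L0 L1 k1 k p) :
    ∀ n < NN e (k + 1), x.val n = y.val n := by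
  obtain ⟨hxF, hxp, hxb⟩ := hx
  obtain ⟨hyF, hyp, hyb⟩ := hy
  have hpre : ∀ n < PP e k, x.val n = y.val n := by
    intro n hn
    have h1 := hxp ⟨n, hn⟩
    have h2 := hyp ⟨n, hn⟩
    have h3 : x.val n = 1 ↔ y.val n = 1 := h1.symm.trans h2
    rcases x.mem n with h | h <;> rcases y.mem n with h' | h'
    · rw [h, h']
    · exfalso; rw [h3.mp h] at h'; norm_num at h'
    · exfalso; rw [h3.mpr h'] at h; norm_num at h
    · rw [h, h']
  have hP := psum_congr (e := e) hpre 1
  have hx1 := psum_B_eq (e := e) (x := x) (k := k) (j := Lk e k + 1) le_rfl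
  have hy1 := psum_B_eq (e := e) (x := y) (k := k) (j := Lk e k + 1) le_rfl
  rw [← add_assoc, ← NN_succ] at hx1 hy1
  -- same bin
  obtain ⟨bx1, bx2⟩ := bin_aux hk hxF
  obtain ⟨by1, by2⟩ := bin_aux hk hyF
  have hbin : bin e L1 k x = bin e L1 k y := by rw [hxb, hyb]
  unfold bin at hbin
  have fx1 := Nat.floor_le bx1
  have fx2 := Nat.lt_floor_add_one
    ((psum e x 1 (NN e (k + 1)) - L1) * 2 ^ (bb e (k + 1)) + 2 ^ (k + 4))
  have fy1 := Nat.floor_le by1
  have fy2 := Nat.lt_floor_add_one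
    ((psum e y 1 (NN e (k + 1)) - L1) * 2 ^ (bb e (k + 1)) + 2 ^ (k + 4))
  rw [hbin] at fx1 fx2
  have hdiff : |(psum e x 1 (NN e (k + 1)) - psum e y 1 (NN e (k + 1))) * 2 ^ (bb e (k + 1))| < 1 := by
    rw [abs_lt]; constructor <;> nlinarith
  rw [hx1, hy1, hP] at hdiff
  have hD : (psum e y 1 (PP e k) + (1 / 2 : ℝ) ^ (bb e k) *
        ∑ i ∈ Finset.range (Lk e k + 1), x.val (PP e k + i) * (1 / 2) ^ i -
      (psum e y 1 (PP e k) + (1 / 2 : ℝ) ^ (bb e k) *
        ∑ i ∈ Finset.range (Lk e k + 1), y.val (PP e k + i) * (1 / 2) ^ i)) * 2 ^ (bb e (k + 1))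
      = 2 ^ (Lk e k) * ∑ i ∈ Finset.range (Lk e k + 1),
        (x.val (PP e k + i) - y.val (PP e k + i)) * (1 / 2) ^ i := by
    have h1 : (1 / 2 : ℝ) ^ (bb e k) * 2 ^ (bb e k) = 1 := by rw [← mul_pow]; norm_num
    simp_rw [sub_mul]
    rw [Finset.sum_sub_distrib, bb_succ, pow_add]
    linear_combination (2 ^ (Lk e k) *
      (∑ i ∈ Finset.range (Lk e k + 1), x.val (PP e k + i) * (1 / 2) ^ i -
      ∑ i ∈ Finset.range (Lk e k + 1), y.val (PP e k + i) * (1 / 2) ^ i)) * h1
  rw [hD, abs_mul, abs_of_pos (by positivity : (0:ℝ) < 2 ^ (Lk e k))] at hdiff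
  have hB : ∀ j < Lk e k + 1, x.val (PP e k + j) = y.val (PP e k + j) := by
    by_contra hcon
    push Not at hcon
    have h1 := binsep (σ := fun j => x.val (PP e k + j)) (τ := fun j => y.val (PP e k + j))
      (fun n => x.mem _) (fun n => y.mem _) (Lk e k + 1) hcon
    have h2 : (2:ℝ) ^ (Lk e k) * (4 * (1 / 2 : ℝ) ^ (Lk e k + 1)) = 2 := by
      rw [pow_succ]
      have : (2 : ℝ) ^ (Lk e k) * (1 / 2) ^ (Lk e k) = 1 := by rw [← mul_pow]; norm_num
      linear_combination 2 * this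
    have h3 : (2:ℝ) ^ (Lk e k) * (4 * (1 / 2 : ℝ) ^ (Lk e k + 1)) ≤
      2 ^ (Lk e k) * |∑ i ∈ Finset.range (Lk e k + 1),
        (x.val (PP e k + i) - y.val (PP e k + i)) * (1 / 2) ^ i| := by gcongr
    linarith
  intro n hn
  rw [NN_succ] at hn
  rcases lt_or_ge n (PP e k) with h | h
  · exact hpre n h
  · have := hB (n - PP e k) (by omega)
    rwa [Nat.add_sub_cancel' h] at this

lemma TT_ediam {e : ℕ} {L0 L1 : ℝ} {k1 k : ℕ} (hk : k1 ≤ k) (p) :
    Metric.ediam (TT e L0 L1 k1 k p) ≤ ENNReal.ofReal ((1 / 2 : ℝ) ^ (NN e (k + 1) + 1)) := by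
  apply Metric.ediam_le
  intro x hx y hy
  rw [edist_dist]
  apply ENNReal.ofReal_le_ofReal
  exact rho_le_of_agree (TT_agree hk hx hy)

lemma dimH_FF (e : ℕ) (L0 L1 : ℝ) (k1 : ℕ) : dimH (FF e L0 L1 k1) = 0 := by
  rw [← nonpos_iff_eq_zero]
  apply le_of_forall_gt
  intro s hs
  obtain ⟨s', hs'0, hs's⟩ := ENNReal.lt_iff_exists_nnreal_btwn.mp hs
  have hs'pos : 0 < s' := by exact_mod_cast hs'0
  refine lt_of_le_of_lt ?_ hs's
  borelize SignSeq
  apply dimH_le_of_hausdorffMeasure_ne_top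
  have hle : μH[(s' : ℝ)] (FF e L0 L1 k1) ≤ liminf (fun k : ℕ =>
      ∑ p, Metric.ediam (TT e L0 L1 k1 k p) ^ (s' : ℝ)) atTop := by
    apply Measure.hausdorffMeasure_le_liminf_sum (s' : ℝ) (FF e L0 L1 k1)
      (fun k : ℕ => ENNReal.ofReal ((1 / 2 : ℝ) ^ (NN e (k + 1) + 1)))
    · rw [← ENNReal.ofReal_zero]
      apply ENNReal.tendsto_ofReal
      have h1 : Tendsto (fun n : ℕ => (1 / 2 : ℝ) ^ n) atTop (𝓝 0) :=
        tendsto_pow_atTop_nhds_zero_of_lt_one (by norm_num) (by norm_num)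
      apply h1.comp
      apply tendsto_atTop_mono (fun k => ?_) tendsto_id
      have := le_NN e (k + 1)
      simp only [id]; omega
    · filter_upwards [eventually_ge_atTop k1] with k hk p
      exact TT_ediam hk p
    · filter_upwards [eventually_ge_atTop k1] with k hk
      exact FF_subset hk
  apply ne_of_lt
  refine lt_of_le_of_lt hle ?_
  refine lt_of_le_of_lt (b := (1 : ℝ≥0∞)) ?_ ENNReal.one_lt_top
  apply liminf_le_of_frequently_le'
  apply Eventually.frequently
  obtain ⟨k2, hk2⟩ := exists_nat_gt (1 / (s' : ℝ))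
  filter_upwards [eventually_ge_atTop (max k1 k2)] with k hk
  have hk1 : k1 ≤ k := le_of_max_le_left hk
  have hk2' : k2 ≤ k := le_of_max_le_right hk
  have hs'R : (0:ℝ) < s' := by exact_mod_cast hs'pos
  calc ∑ p, Metric.ediam (TT e L0 L1 k1 k p) ^ (s' : ℝ)
      ≤ ∑ _p : (Fin (PP e k) → Bool) × Fin (2 ^ (k + 5) + 1),
          (ENNReal.ofReal ((1 / 2 : ℝ) ^ (NN e (k + 1) + 1))) ^ (s' : ℝ) := by
        apply Finset.sum_le_sum
        intro p _
        exact ENNReal.rpow_le_rpow (TT_ediam hk1 p) (NNReal.coe_nonneg s')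
    _ = ENNReal.ofReal (((2:ℝ) ^ (PP e k) * (2 ^ (k + 5) + 1)) *
          ((1 / 2 : ℝ) ^ (NN e (k + 1) + 1)) ^ (s' : ℝ)) := by
        rw [Finset.sum_const, Finset.card_univ, Fintype.card_prod, Fintype.card_fun,
          Fintype.card_bool, Fintype.card_fin, Fintype.card_fin, nsmul_eq_mul,
          ENNReal.ofReal_rpow_of_nonneg (by positivity) (NNReal.coe_nonneg s'),
          ENNReal.ofReal_mul (by positivity)]
        congr 1
        rw [← ENNReal.ofReal_natCast]
        congr 1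
        push_cast
        ring
    _ ≤ 1 := by
        rw [← ENNReal.ofReal_one]
        apply ENNReal.ofReal_le_ofReal
        have h1 : (2:ℝ) ^ (PP e k) * (2 ^ (k + 5) + 1) ≤ 2 ^ (PP e k + k + 6) := by
          have : (1:ℝ) ≤ 2 ^ (k + 5) := one_le_pow₀ (by norm_num)
          calc (2:ℝ) ^ (PP e k) * (2 ^ (k + 5) + 1) ≤ 2 ^ (PP e k) * (2 ^ (k + 5) + 2 ^ (k + 5)) := by
                gcongr
            _ = _ := by ring
        have h2 : ((1 / 2 : ℝ) ^ (NN e (k + 1) + 1)) ^ (s' : ℝ) ≤ (1 / 2 : ℝ) ^ (PP e k + k + 6) := by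
          rw [← Real.rpow_natCast, ← Real.rpow_mul (by norm_num), ← Real.rpow_natCast]
          apply Real.rpow_le_rpow_of_exponent_ge (by norm_num) (by norm_num)
          have h3 : (k + 1) * (PP e k + k + 6) ≤ NN e (k + 1) + 1 := by
            rw [NN_succ, ← Lk_eq]; omega
          have h4 : ((k + 1) * (PP e k + k + 6) : ℝ) ≤ ((NN e (k + 1) + 1 : ℕ) : ℝ) := by
            exact_mod_cast h3
          have h5 : (1:ℝ) ≤ (k + 1) * s' := by
            have h6 : (k2:ℝ) ≤ k := by exact_mod_cast hk2'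
            have h7 : 1 / (s':ℝ) < k + 1 := by linarith
            rw [div_lt_iff₀ hs'R] at h7
            exact h7.le
          push_cast at h4 ⊢
          have h8 : (0:ℝ) ≤ (PP e k : ℝ) + k + 6 := by positivity
          calc (PP e k : ℝ) + k + 6 = 1 * ((PP e k : ℝ) + k + 6) := by ring
            _ ≤ ((k + 1) * s') * ((PP e k : ℝ) + k + 6) := by gcongr
            _ = ((k + 1) * ((PP e k : ℝ) + k + 6)) * s' := by ring
            _ ≤ _ := by gcongr
        calc (2:ℝ) ^ (PP e k) * (2 ^ (k + 5) + 1) * ((1 / 2 : ℝ) ^ (NN e (k + 1) + 1)) ^ (s' : ℝ)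
            ≤ 2 ^ (PP e k + k + 6) * (1 / 2 : ℝ) ^ (PP e k + k + 6) := by gcongr
          _ = 1 := by rw [← mul_pow]; norm_num

/-! ### the sequence -/

/-- the sequence of vectors in `ℝ^(e+2)` -/
noncomputable def vec (e n : ℕ) : EuclideanSpace ℝ (Fin (e + 2)) :=
  WithLp.toLp 2 (fun t => coord e n t)

lemma tendsto_euclidean_iff {ι : Type*} {d : ℕ} {l : Filter ι}
    {f : ι → EuclideanSpace ℝ (Fin d)} {L : EuclideanSpace ℝ (Fin d)} :
    Tendsto f l (𝓝 L) ↔ ∀ t, Tendsto (fun i => f i t) l (𝓝 (L t)) := by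
  constructor
  · intro h t
    exact ((EuclideanSpace.proj t : EuclideanSpace ℝ (Fin d) →L[ℝ] ℝ).continuous.tendsto L).comp h
  · intro h
    have h1 : Tendsto (fun i => (EuclideanSpace.equiv (Fin d) ℝ) (f i)) l
        (𝓝 ((EuclideanSpace.equiv (Fin d) ℝ) L)) := tendsto_pi_nhds.mpr h
    have h2 := ((EuclideanSpace.equiv (Fin d) ℝ).symm.continuous.tendsto _).comp h1
    simpa [Function.comp_def] using h2

lemma sum_vec_apply (e : ℕ) (x : SignSeq) (N : ℕ) (t : Fin (e + 2)) :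
    (∑ n ∈ Finset.range N, x.val n • vec e n) t = psum e x t N := by
  unfold psum
  induction N with
  | zero => simp
  | succ N ih => rw [Finset.sum_range_succ, Finset.sum_range_succ, ← ih]; simp [vec]

lemma mem_signSet_iff (e : ℕ) (L : EuclideanSpace ℝ (Fin (e + 2))) (x : SignSeq) :
    x ∈ signSet (vec e) L ↔ ∀ t : Fin (e + 2), Tendsto (psum e x t) atTop (𝓝 (L t)) := by
  unfold signSet
  rw [mem_ofPred_eq, tendsto_euclidean_iff]
  simp_rw [sum_vec_apply]

lemma vec_null (e : ℕ) : Tendsto (vec e) atTop (𝓝 0) := by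
  rw [tendsto_euclidean_iff]
  intro t
  exact tendsto_coord e t

lemma signSet_nonempty (e : ℕ) (L : EuclideanSpace ℝ (Fin (e + 2))) :
    (signSet (vec e) L).Nonempty := by
  set L' : ℕ → ℝ := fun t => if h : t < e + 2 then L ⟨t, h⟩ else 0 with hL'
  refine ⟨⟨fun n => sg (phi e n (res e L' n)), fun n => sg_mem _⟩, ?_⟩
  rw [mem_signSet_iff]
  intro t
  have h1 : ∀ N, psum e ⟨fun n => sg (phi e n (res e L' n)), fun n => sg_mem _⟩ t N
      = L' t - res e L' N t := fun N => sum_sg e L' N t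
  have h2 : L' t = L t := by simp [hL', t.2]
  have h3 : Tendsto (fun n => res e L' n t) atTop (𝓝 0) := by
    rcases Nat.lt_or_ge (t : ℕ) 2 with ht | ht
    · obtain ⟨g0, g1⟩ := tendsto_res_XY e L'
      have : (t : ℕ) = 0 ∨ (t : ℕ) = 1 := by omega
      rcases this with h | h <;> rw [h]
      · exact g0
      · exact g1
    · have := tendsto_res_extra e L' (t - 2) (by omega)
      rwa [Nat.sub_add_cancel ht] at this
  have h4 : Tendsto (fun N => L' t - res e L' N t) atTop (𝓝 (L' t - 0)) := h3.const_sub _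
  rw [sub_zero, h2] at h4
  refine h4.congr (fun N => ?_)
  rw [h1, h2]

lemma dimH_signSet (e : ℕ) (L : EuclideanSpace ℝ (Fin (e + 2))) :
    dimH (signSet (vec e) L) = 0 := by
  rw [← nonpos_iff_eq_zero]
  have hsub : signSet (vec e) L ⊆ ⋃ k1, FF e (L 0) (L 1) k1 := by
    intro x hx
    rw [mem_signSet_iff] at hx
    rw [mem_iUnion]
    have h0 := hx 0
    have h1 := hx 1
    obtain ⟨n0, hn0⟩ := (Metric.tendsto_atTop.mp h0) 1 one_pos
    refine ⟨n0, h1, fun n hn => ?_⟩
    have := hn0 n ((le_NN e n0).trans hn)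
    rw [Real.dist_eq] at this
    exact this.le
  refine (dimH_mono hsub).trans ?_
  rw [dimH_iUnion]
  simp [dimH_FF]

/-- **Q1 fails in every dimension `d ≥ 2`**, in the strongest way: there is a null sequence in
`ℝ^d` for which every target is attained and `dim E_L = 0` for every target `L`. -/
theorem result : ∀ d : ℕ, 2 ≤ d → ∃ a : ℕ → EuclideanSpace ℝ (Fin d),
    Tendsto a atTop (𝓝 0) ∧ (∀ L : EuclideanSpace ℝ (Fin d), (signSet a L).Nonempty) ∧
      ∀ L : EuclideanSpace ℝ (Fin d), dimH (signSet a L) = 0 := by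
  intro d hd
  obtain ⟨e, rfl⟩ : ∃ e, d = e + 2 := ⟨d - 2, by omega⟩
  exact ⟨vec e, vec_null e, signSet_nonempty e, dimH_signSet e⟩

end Pool.Agent.Results.MP_b48a23_an.AllTargetsDimZero
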